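import Pool.Agent.Lib_helper19.EFF.Defs
import Pool.Agent.Lib_helper89.APM.Aall
import Pool.Agent.Lib_helper89.APM.Step
import Pool.Agent.Lib_helper89.APM.Pack
import Pool.Agent.Lib_helper62.EFF.Val
import Pool.Agent.Lib_helper19.EFF.Nb
import Pool.Agent.Lib_helper16.KP.Resid
import Pool.Agent.Lib_helper58.KT.Final

/-!
# One element at one level decides all higher levels, for all primes and all dimensions
-/

set_option autoImplicit false

namespace Pool.Agent.EFF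

open NumberField Topology Polynomial
open Pool.Agent.TT Pool.Agent.TB Pool.Agent.TF Pool.Agent.RF Pool.Agent.TBL Pool.Agent.TU
open Pool.Agent.KT Pool.Agent.KP Pool.Agent.IT

theorem apm_pow_le {p : ℕ} [hp : Fact p.Prime] {x : ℂ_[p]} (hx : ‖x‖ = 1) (i : ℕ) :
    ‖x ^ i - 1‖ ≤ ‖x - 1‖ := by
  rw [← mul_geom_sum, norm_mul]
  have h3 : ‖∑ j ∈ Finset.range i, x ^ j‖ ≤ 1 := by
    apply IsUltrametricDist.norm_sum_le_of_forall_le_of_nonneg zero_le_one
    intro j _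
    rw [norm_pow, hx, one_pow]
  calc ‖x - 1‖ * ‖∑ j ∈ Finset.range i, x ^ j‖ ≤ ‖x - 1‖ * 1 :=
        mul_le_mul_of_nonneg_left h3 (norm_nonneg _)
    _ = _ := mul_one _

/-- The distance to `1` of a primitive root of unity of order `p ^ n` does not decrease in `n`. -/
theorem apm_far {p : ℕ} [hp : Fact p.Prime] {k n : ℕ} (hkn : k ≤ n) {w₀ w : ℂ_[p]}
    (hw₀ : IsPrimitiveRoot w₀ (p ^ k)) (hw : IsPrimitiveRoot w (p ^ n)) :
    ‖w₀ - 1‖ ≤ ‖w - 1‖ := by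
  have hpn : 0 < p ^ n := pow_pos hp.out.pos n
  have hne : NeZero (p ^ n) := ⟨hpn.ne'⟩
  have hwn : ‖w‖ = 1 := tu_norm_one hpn hw.pow_eq_one
  obtain ⟨i, -, hi⟩ := hw.eq_pow_of_pow_eq_one (ξ := w₀) (by
    obtain ⟨t, ht⟩ := pow_dvd_pow p hkn
    rw [ht, pow_mul, hw₀.pow_eq_one, one_pow])
  rw [← hi]
  exact apm_pow_le hwn i

/-- A root of unity of `p`-power order is congruent to `1` modulo the maximal ideal. -/
theorem apm_near1 {p : ℕ} [hp : Fact p.Prime] {n : ℕ} {w : ℂ_[p]} (hw : w ^ p ^ n = 1) :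
    ‖w - 1‖ < 1 := by
  have hpn : 0 < p ^ n := pow_pos hp.out.pos n
  have hwn : ‖w‖ = 1 := tu_norm_one hpn hw
  obtain ⟨red, hred, -⟩ := res_exists p (AlgebraicClosure (ZMod p))
  let x : nv ℂ_[p] := ⟨w, hwn.le⟩
  have hx : x ^ p ^ n = 1 := Subtype.ext hw
  have h1 : (red x - 1) ^ p ^ n = 0 := by
    rw [sub_pow_char_pow, one_pow, ← map_pow, hx, map_one, sub_self]
  have h2 : red (x - 1) = 0 := by
    rw [map_sub, map_one]
    exact (pow_eq_zero_iff hpn.ne').mp h1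
  exact (red_zero_iff red hred (x - 1)).mp h2

/-- A root of unity is the product of one of order prime to `p` and one of `p`-power order. -/
theorem apm_split {A : Type} [Field A] {p M n : ℕ} (hp : p.Prime) (hM : ¬ p ∣ M) {x w : A}
    (hx : x ^ (M * p ^ n) = 1) (hw : IsPrimitiveRoot w (p ^ n)) :
    ∃ (ξ : A) (u : ℕ), ξ ^ M = 1 ∧ x = ξ * w ^ u := by
  have hM0 : 0 < M := Nat.pos_of_ne_zero fun h => hM (by rw [h]; exact dvd_zero p)
  have hpn : 0 < p ^ n := pow_pos hp.pos n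
  have hne : NeZero (p ^ n) := ⟨hpn.ne'⟩
  have hcop : Nat.Coprime M (p ^ n) :=
    (Nat.Coprime.pow_left n ((Nat.Prime.coprime_iff_not_dvd hp).mpr hM)).symm
  have hx0 : x ≠ 0 := by
    intro h0
    rw [h0, zero_pow (Nat.mul_pos hM0 hpn).ne'] at hx
    exact zero_ne_one hx
  have hb : (M : ℤ) * M.gcdA (p ^ n) + ((p ^ n : ℕ) : ℤ) * M.gcdB (p ^ n) = 1 := by
    rw [← Nat.gcd_eq_gcd_ab, hcop]
    rfl
  set a : ℤ := M.gcdA (p ^ n) with ha
  set b : ℤ := M.gcdB (p ^ n) with hb'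
  have hη : ((x ^ M) ^ a) ^ p ^ n = 1 := by
    rw [← zpow_natCast ((x ^ M) ^ a), ← zpow_mul, mul_comm a, zpow_mul, zpow_natCast, ← pow_mul,
      hx, one_zpow]
  obtain ⟨u, -, hu⟩ := hw.eq_pow_of_pow_eq_one hη
  refine ⟨(x ^ p ^ n) ^ b, u, ?_, ?_⟩
  · rw [← zpow_natCast ((x ^ p ^ n) ^ b), ← zpow_mul, mul_comm b, zpow_mul, zpow_natCast,
      ← pow_mul, mul_comm (p ^ n), hx, one_zpow]
  · rw [hu]
    have h1 : x = x ^ ((M : ℤ) * a + ((p ^ n : ℕ) : ℤ) * b) := by rw [hb, zpow_one]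
    nth_rewrite 1 [h1]
    rw [zpow_add₀ hx0, zpow_mul, zpow_mul, zpow_natCast, zpow_natCast, mul_comm]

/-- A primitive root of order `p ^ (n + b)` above a given primitive root of order `p ^ n`, `n > 0`. -/
theorem apm_root {p n : ℕ} (hp : p.Prime) (hn : 0 < n) (b : ℕ) {w : Qbar}
    (hw : IsPrimitiveRoot w (p ^ n)) :
    ∃ v : Qbar, IsPrimitiveRoot v (p ^ (n + b)) ∧ v ^ p ^ b = w := by
  induction b with
  | zero => exact ⟨w, by rw [add_zero]; exact hw, by rw [pow_zero, pow_one]⟩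
  | succ b ih =>
    obtain ⟨v, hv, hvw⟩ := ih
    obtain ⟨y, hy⟩ := IsAlgClosed.exists_pow_nat_eq v hp.pos
    refine ⟨y, ?_, ?_⟩
    · have hpf : Fact p.Prime := ⟨hp⟩
      have h1 : y ^ p ^ (n + b + 1) = 1 := by
        rw [pow_succ', pow_mul, hy]
        exact hv.pow_eq_one
      have h2 : ¬ y ^ p ^ (n + b) = 1 := by
        intro h
        obtain ⟨j, hj⟩ : ∃ j, n + b = j + 1 := ⟨n + b - 1, by omega⟩
        rw [hj] at h hv
        rw [pow_succ' p j, pow_mul, hy] at h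
        have h3 : p ^ (j + 1) ∣ p ^ j := hv.dvd_of_pow_eq_one _ h
        have h4 := Nat.le_of_dvd (pow_pos hp.pos j) h3
        have h5 : p ^ j < p ^ (j + 1) := Nat.pow_lt_pow_right hp.one_lt (Nat.lt_succ_self j)
        omega
      have h3 : orderOf y = p ^ (n + b + 1) := orderOf_eq_prime_pow h2 h1
      have h4 : n + (b + 1) = n + b + 1 := by omega
      rw [h4, ← h3]
      exact IsPrimitiveRoot.orderOf y
    · rw [pow_succ', pow_mul, hy, hvw]

/-- The same for all `n`. -/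
theorem apm_root' {p n : ℕ} (hp : p.Prime) (b : ℕ) {w : Qbar} (hw : IsPrimitiveRoot w (p ^ n)) :
    ∃ v : Qbar, IsPrimitiveRoot v (p ^ (n + b)) ∧ v ^ p ^ b = w := by
  rcases Nat.eq_zero_or_pos n with hn | hn
  · subst hn
    obtain ⟨v, hv⟩ := exists_prim (pow_pos hp.pos b)
    have hw1 : w = 1 := by
      have h := hw.pow_eq_one
      rw [pow_zero, pow_one] at h
      exact h
    refine ⟨v, ?_, ?_⟩
    · rw [zero_add]
      exact hv
    · rw [hv.pow_eq_one, hw1]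
  · exact apm_root hp hn b hw

theorem apm_charpoly {C : Type} [Field C] [IsAlgClosed C] {d : ℕ} (A : Matrix (Fin d) (Fin d) C)
    {β : Fin d → C} (hβ : Finset.univ.val.map β = A.charpoly.roots) :
    A.charpoly = ∏ j, (X - Polynomial.C (β j)) := by
  have h1 := (IsAlgClosed.splits A.charpoly).eq_prod_roots_of_monic A.charpoly_monic
  rw [h1, ← hβ, Multiset.map_map]
  rfl

/-- **One element at one level decides all higher levels and all `ℓ`.** -/
theorem eff_tate_all {K : Type} [Field K] [NumberField K] [Algebra K Qbar] {p : ℕ}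
    [hp : Fact p.Prime] (θ : Qbar →+* ℂ_[p]) {m c : ℕ} (hpm : ¬ p ∣ m) {ζ : 𝓞 K}
    (hζ : IsPrimitiveRoot ζ (m * p ^ c)) {k : ℕ} (hck : c ≤ k) {d e b : ℕ}
    (hd : d < p ^ (b + 1)) {s : ℕ} (S : Fin s → TowerStratum K)
    {ω : 𝓞 (level K p k)} (hω : IsPrimitiveRoot ω (p ^ k))
    (ρ : (Qbar ≃ₐ[level K p k] Qbar) →* Matrix (Fin d) (Fin d) ℂ_[p]) (hρ : Continuous ρ)
    (hbot : LevelTraces θ (m * p ^ c) ζ S k ω ρ) {g : Qbar ≃ₐ[level K p k] Qbar}
    (hg : FixesRoots p g)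
    (hbig : ∀ μ : Fin (e + 1) → ℂ_[p], (∀ a, SmallRoot (d * m.totient) (k + b) (μ a)) →
      ∃ i, ‖(p : ℂ_[p])‖ <
        ‖((ρ g).charpoly %ₘ ∏ a, (X - C (μ a))).coeff i‖ ^ (p ^ c).totient) :
    ∀ n, k ≤ n → 0 < n → ∀ j, ¬ ManyTateClasses p (m * p ^ c) ζ S d j e n := by
  classical
  intro n hkn hn0 j hbad
  have hpp := hp.out
  have hm : 0 < m := Nat.pos_of_ne_zero fun h => hpm (by rw [h]; exact dvd_zero p)
  have hm0 : 0 < m * p ^ c := Nat.mul_pos hm (pow_pos hpp.pos c)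
  have hζ1 : ζ ^ (m * p ^ c) = 1 := hζ.pow_eq_one
  obtain ⟨zc, hzc⟩ := exists_prim (pow_pos hpp.pos c)
  obtain ⟨r, hr0', hr1, hpr, hrp, R, hR1, hR2⟩ := block_VAL hpp (norm_p_lt p)
    (hzc.map_of_injective θ.injective) θ
  have hp0 : 0 < ‖(p : ℂ_[p])‖ := by
    rw [norm_pos_iff]
    exact_mod_cast hpp.ne_zero
  have hr0 : 0 < r := hp0.trans_le hpr
  have hζR : emb K ζ ∈ R := hR1 m _ hpm (by rw [← map_pow, hζ1, map_one])
  obtain ⟨ω', hω', ℓ, hℓ, il, V, _, _, π, hfin, hV, hπ, hTate⟩ := hbad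
  have hnf : NumberField (level K p n) := level_nf hpp n
  obtain ⟨Bn, hBn⟩ := tate_eig il hV π
    (fun F _ _ φ => towerSum (m * p ^ c) ζ (p ^ n) ω' φ S) hπ hTate
  obtain ⟨B₀, hB₀⟩ := hbot
  obtain ⟨g', hg'⟩ : ∃ g' : Qbar ≃ₐ[K] Qbar, ∀ x, g' x = g x := ⟨g.restrictScalars K, fun _ => rfl⟩
  have hgi : ∀ x, g⁻¹ x = g'⁻¹ x := by
    intro x
    apply g.injective
    have h1 : g (g⁻¹ x) = x := by
      rw [← AlgEquiv.mul_apply, mul_inv_cancel, AlgEquiv.one_apply]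
    have h2 : g' (g'⁻¹ x) = x := by
      rw [← AlgEquiv.mul_apply, mul_inv_cancel, AlgEquiv.one_apply]
    rw [h1, ← hg', h2]
  -- the precision
  obtain ⟨ε, hε, I₀, hnear⟩ := apm_near d (fun l => (ρ g ^ l).trace) hr0
  obtain ⟨N₀, hN₀⟩ : ∃ N₀ : ℕ, ‖(p : ℂ_[p])‖ ^ N₀ < ε := exists_pow_lt_of_lt_one hε (norm_p_lt p)
  obtain ⟨N, hN⟩ : ∃ N : ℕ, N = n + k + N₀ + 1 := ⟨_, rfl⟩
  have hNpos : 0 < N := by omega
  have hkN : k ≤ N := by omega
  have hnN : n ≤ N := by omega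
  have hNr : ‖(p : ℂ_[p])‖ ^ N ≤ r := by
    refine le_trans ?_ hpr
    calc ‖(p : ℂ_[p])‖ ^ N ≤ ‖(p : ℂ_[p])‖ ^ 1 :=
          pow_le_pow_of_le_one (norm_nonneg _) (norm_p_lt p).le hNpos
      _ = _ := pow_one _
  have hNε : ‖(p : ℂ_[p])‖ ^ N < ε := lt_of_le_of_lt
    (pow_le_pow_of_le_one (norm_nonneg _) (norm_p_lt p).le (by omega)) hN₀
  -- the neighborhood
  have hOk : IsOpen {σ : Qbar ≃ₐ[level K p k] Qbar |
      ∀ l ∈ I₀, ‖(ρ σ⁻¹ ^ l).trace - (ρ g ^ l).trace‖ < ε} := by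
    have h2 : {σ : Qbar ≃ₐ[level K p k] Qbar |
        ∀ l ∈ I₀, ‖(ρ σ⁻¹ ^ l).trace - (ρ g ^ l).trace‖ < ε} =
        ⋂ l ∈ I₀, {σ : Qbar ≃ₐ[level K p k] Qbar |
          ‖(ρ σ⁻¹ ^ l).trace - (ρ g ^ l).trace‖ < ε} := by
      ext σ
      simp only [Set.mem_ofPred_eq, Set.mem_iInter]
    rw [h2]
    apply isOpen_biInter_finset
    intro l _
    have h3 : Continuous fun σ : Qbar ≃ₐ[level K p k] Qbar =>
        ‖(ρ σ⁻¹ ^ l).trace - (ρ g ^ l).trace‖ :=
      ((((hρ.comp continuous_inv).pow l).matrix_trace).sub continuous_const).norm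
    exact isOpen_lt h3 continuous_const
  have hNB := effn_nhds (K := K) (p := p) (n := k) hOk hgi (by
    rw [Set.mem_ofPred_eq]
    intro l _
    rw [inv_inv, sub_self, norm_zero]
    exact hε)
  have hfixN := nbhd_mem (K := K) (1 : (Qbar ≃ₐ[K] Qbar) →* Matrix (Fin 0) (Fin 0) ℂ_[p])
    continuous_const g' N (fun z hz => by rw [hg']; exact hg N z hz) ∅ one_pos
  -- the Frobenius element
  obtain ⟨q, hq, hqB, Q, hQ, hqQ, σ, ⟨hσNB, hσfix⟩, hσ⟩ :=
    fb_dense g'⁻¹ _ (Filter.inter_mem hNB hfixN)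
      (B₀ ∪ (Bn ∪ Finset.range (p ^ N + m * p ^ c + 1)))
  rw [Finset.mem_union, Finset.mem_union, Finset.mem_range, not_or, not_or] at hqB
  obtain ⟨hqB0, hqB1, hqB2⟩ := hqB
  have hqN : p ^ N < q := by omega
  have hqm : m * p ^ c < q := by omega
  have hqF : Fact q.Prime := ⟨hq⟩
  obtain ⟨-, hσ2⟩ := hσfix
  obtain ⟨w, Θ, L, hw, hqN1, hΘ2, hΘ4, hLR, hLrec⟩ :=
    ap_package hpp hm0 hζ hqm hqN hQ hqQ hσ hσ2 S d
  have hLrec2 : ∀ n ≤ N, ∀ j ≤ d, (j : Qbar) * (L j).eval (w n) =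
      -∑ i ∈ Finset.range j, ((Θ (i + 1)).map (emb K)).eval (w n) *
        (L (j - 1 - i)).eval (w n) := by
    intro n hn j hj
    rcases Nat.eq_zero_or_pos j with h0 | h0
    · subst h0
      simp
    · exact (hLrec n hn).2 j h0 hj
  have hq0 : (q : Qbar) ≠ 0 := by exact_mod_cast hq.ne_zero
  obtain ⟨hq1, hqn⟩ := q_norm (p := p) hNpos hqN1 hq.one_le
  have hqr : ‖(q : ℂ_[p]) - 1‖ ≤ r := hq1.trans hNr
  have hqε : ‖(q : ℂ_[p]) - 1‖ < ε := lt_of_le_of_lt hq1 hNε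
  -- the level `n`
  obtain ⟨σn, hσn, hΘn⟩ := hΘ4 n hnN
  obtain ⟨α, hα1, M, hM, hα2⟩ := hBn q hq hqB1 Q hQ hqQ σn (by
    intro x y hxy
    rw [hσn] at hxy
    exact hσ x y hxy)
  have hvaln : ∀ l, 1 ≤ l → ∑ i, α i ^ l = ((Θ l).map (emb K)).eval (w n) := by
    intro l hl
    obtain ⟨F', _, _, ψ, hcard, hψ, hvl⟩ := hΘn ω' hω' l hl
    rw [hvl]
    exact hα1 l hl F' ψ hcard hψ
  -- the roots of unity
  obtain ⟨c', hc'⟩ : ∃ c' : ℚ, c' = ((q : ℚ) ^ j)⁻¹ := ⟨_, rfl⟩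
  have hcq : (c' : Qbar) * (q : Qbar) ^ j = 1 := by
    rw [hc', Rat.cast_inv, Rat.cast_pow, Rat.cast_natCast]
    exact inv_mul_cancel₀ (pow_ne_zero _ hq0)
  have hzm : emb K ζ ^ (m * p ^ c) = 1 := by rw [← map_pow, hζ1, map_one]
  have hx : ∀ L : IntermediateField ℚ Qbar, emb K ζ ∈ L → w n ∈ L → ∀ l,
      ∑ i, ((c' : Qbar) * α i) ^ l ∈ L := by
    intro L h1 h2 l
    have h3 : ∑ i, ((c' : Qbar) * α i) ^ l = (c' : Qbar) ^ l * ∑ i, α i ^ l := by
      rw [Finset.mul_sum]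
      apply Finset.sum_congr rfl
      intro i _
      rw [mul_pow]
    rw [h3]
    have hcL : (c' : Qbar) ∈ L := by
      have := L.algebraMap_mem c'
      exact this
    rcases Nat.eq_zero_or_pos l with hl | hl
    · subst hl
      simp only [pow_zero, Finset.sum_const, Finset.card_univ, Fintype.card_fin, nsmul_eq_mul,
        mul_one, one_mul]
      exact natCast_mem L d
    · apply mul_mem (pow_mem hcL l)
      rw [hvaln l hl]
      exact hΘ2 L.toSubring h1 (w n) h2 l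
  obtain ⟨vn, hvn, hvnw⟩ := apm_root hpp hn0 b (hw n hnN)
  obtain ⟨vk, hvk, hvkw⟩ := apm_root' hpp b (hw k hkN)
  set I : Finset (Fin d) := Finset.univ.filter fun i => α i ^ M = ((q : Qbar) ^ M) ^ j with hI
  have hroots : ∀ i ∈ I, ∃ (M' : ℕ) (ξ : Qbar) (u : ℕ), 0 < M' ∧ ¬ p ∣ M' ∧
      M'.totient ≤ d * m.totient ∧ ξ ^ M' = 1 ∧ α i = (q : Qbar) ^ j * (ξ * vn ^ u) := by
    intro i hi
    rw [hI, Finset.mem_filter] at hi
    obtain ⟨M', h1, h2, h3, h4⟩ := block_A_all hpp hpm (hck.trans hkn) hn0 hd hzm (hw n hnN)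
      (fun i => (c' : Qbar) * α i) hx hM (i := i) (by
        show ((c' : Qbar) * α i) ^ M = 1
        rw [mul_pow, hi.2, ← pow_mul, mul_comm M j, pow_mul, ← mul_pow, hcq, one_pow])
    obtain ⟨ξ, u, h5, h6⟩ := apm_split hpp h2 h4 hvn
    refine ⟨M', ξ, u, h1, h2, h3, h5, ?_⟩
    rw [← h6]
    show α i = (q : Qbar) ^ j * ((c' : Qbar) * α i)
    rw [← mul_assoc, mul_comm ((q : Qbar) ^ j), hcq, one_mul]
  let emb1 : Fin (e + 1) ↪ Fin d :=
    (Fin.castLEEmb (Nat.succ_le_of_lt hα2)).trans (I.orderEmbOfFin rfl).toEmbedding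
  have hemb1 : ∀ a, emb1 a ∈ I := fun a => Finset.orderEmbOfFin_mem I rfl _
  choose M' ξ u hM'0 hM'p hM't hξ hαξ using fun a => hroots (emb1 a) (hemb1 a)
  -- the ring and the polynomial
  let θR : R →+* ℂ_[p] := θ.comp R.subtype
  have hrO : ∀ a : R, ‖θR a‖ = 1 ∨ ‖θR a‖ ≤ r := fun a => hR2 a a.2
  have hξR : ∀ a, ξ a ∈ R := fun a => hR1 (M' a) _ (hM'p a) (by rw [pow_mul, hξ a, one_pow])
  have hLlift : ∀ l, ∃ P : R[X], P.map R.subtype = L l := by
    intro l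
    refine ⟨Polynomial.toSubring (L l) R ?_, ?_⟩
    · intro x hx
      rw [Finset.mem_coe, Polynomial.mem_coeffs_iff] at hx
      obtain ⟨i, -, rfl⟩ := hx
      exact hLR R hζR l i
    · exact Polynomial.map_toSubring _ _ _
  choose P hP using hLlift
  have hPev : ∀ (l : ℕ) (v : Qbar), (P l).eval₂ θR (θ v) = θ ((L l).eval v) := by
    intro l v
    rw [← hP l, Polynomial.eval_map, ← Polynomial.hom_eval₂]
  obtain ⟨F, hF⟩ : ∃ F : R[X][X], F = lpoly d fun l => (P l).comp (X ^ p ^ b) := ⟨_, rfl⟩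
  have hFmap : ∀ v : Qbar, F.map (eval₂RingHom θR (θ v)) =
      (lpoly d fun l => (L l).eval (v ^ p ^ b)).map θ := by
    intro v
    rw [hF, lpoly_map, lpoly_map]
    congr 1
    funext l
    rw [coe_eval₂RingHom, Polynomial.eval₂_comp, Polynomial.eval₂_X_pow, ← map_pow, hPev]
  -- the level `n`
  have hαpoly : (lpoly d fun l => (L l).eval (w n)) = ∏ i, (X - C (α i)) := by
    rw [lpoly_npoly (fun l => ((Θ l).map (emb K)).eval (w n)) (fun l => (L l).eval (w n))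
      (hLrec n hnN).1 (hLrec2 n hnN)]
    exact npoly_family α _ fun l hl => (hvaln l hl).symm
  have hFn : F.map (eval₂RingHom θR (θ vn)) = ∏ i, (X - C (θ (α i))) := by
    rw [hFmap, hvnw, hαpoly, Polynomial.map_prod]
    apply Finset.prod_congr rfl
    intro i _
    rw [Polynomial.map_sub, Polynomial.map_X, Polynomial.map_C]
  have hθR1 : ∀ a : R, ‖θR a‖ ≤ 1 := by
    intro a
    rcases hrO a with h | h
    · exact h.le
    · exact h.trans hr1.le
  have hvnn : ‖θ vn‖ = 1 := tu_norm_one (pow_pos hpp.pos (n + b)) (by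
    rw [← map_pow, hvn.pow_eq_one, map_one])
  have hvkn : ‖θ vk‖ = 1 := tu_norm_one (pow_pos hpp.pos (k + b)) (by
    rw [← map_pow, hvk.pow_eq_one, map_one])
  have hα1n : ∀ i, ‖θ (α i)‖ ≤ 1 := by
    apply apm_int
    intro l
    rw [← hFn, Polynomial.coeff_map, coe_eval₂RingHom, Polynomial.eval₂_eq_sum_range]
    apply IsUltrametricDist.norm_sum_le_of_forall_le_of_nonneg zero_le_one
    intro i _
    rw [norm_mul, norm_pow, hvnn, one_pow, mul_one]
    exact hθR1 _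
  -- the level `k`
  obtain ⟨σk, hσk, hΘk⟩ := hΘ4 k hkN
  obtain ⟨h', hh', hh'2⟩ := hσNB
  have hσkh : h' = σk := by
    apply AlgEquiv.ext
    intro x
    rw [hh'2, hσk]
  rw [hσkh, Set.mem_ofPred_eq] at hh'
  have hfrk : ∀ x y : 𝓞 Qbar, (y : Qbar) = σk x → y - x ^ q ∈ Q := by
    intro x y hxy
    rw [hσk] at hxy
    exact hσ x y hxy
  obtain ⟨β, hβ⟩ := effn_family (ρ g)
  have hβt : ∀ l : ℕ, (ρ g ^ l).trace = ∑ i, β i ^ l := fun l => effn_trace (ρ g) hβ l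
  -- the power sums at the level `k`
  obtain ⟨t, ht⟩ : ∃ t : ℕ → ℂ_[p], t = fun l =>
      if l = 0 then (d : ℂ_[p]) else θ (((Θ l).map (emb K)).eval (w k)) := ⟨_, rfl⟩
  have key : ∀ l ∈ I₀, ‖t l - (ρ g ^ l).trace‖ < ε := by
    intro l hl
    rw [ht]
    simp only
    rcases Nat.eq_zero_or_pos l with hl0 | hl0
    · rw [if_pos hl0, hl0, pow_zero, Matrix.trace_one, Fintype.card_fin, sub_self, norm_zero]
      exact hε
    · rw [if_neg hl0.ne']
      obtain ⟨F', _, _, ψ, hcard, hψ, hvl⟩ := hΘk ω hω l hl0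
      rw [hvl]
      have hfr : ∀ x y : 𝓞 Qbar, (y : Qbar) = (σk ^ l) x →
          y - x ^ Fintype.card F' ∈ Q := by
        rw [hcard]
        exact pl_frob_pow hfrk l
      have h2 := hB₀ q hq hqB0 Q hQ hqQ F' ψ hψ (σk ^ l) hfr
      beta_reduce at h2
      rw [hcard, ← inv_pow, map_pow] at h2
      have h3 := hh' l hl
      have h4 : ‖((q ^ l : ℕ) : ℂ_[p]) - 1‖ < ε := by
        rw [Nat.cast_pow]
        exact lt_of_le_of_lt (q_pow_norm q _) hqε
      have h6 : emb (level K p k) (towerSum (m * p ^ c) ζ (p ^ k) ω ψ S) =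
          algebraMap (level K p k) Qbar
            ((towerSum (m * p ^ c) ζ (p ^ k) ω ψ S : 𝓞 (level K p k)) : level K p k) := rfl
      have h5 : θ (emb (level K p k) (towerSum (m * p ^ c) ζ (p ^ k) ω ψ S)) -
          (ρ g ^ l).trace =
          -((ρ σk⁻¹ ^ l).trace - θ (algebraMap (level K p k) Qbar
            (towerSum (m * p ^ c) ζ (p ^ k) ω ψ S : 𝓞 (level K p k)))) +
          ((ρ σk⁻¹ ^ l).trace - (ρ g ^ l).trace) := by
        rw [h6]
        ring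
      rw [h5]
      refine lt_of_le_of_lt (IsUltrametricDist.norm_add_le_max _ _) (max_lt ?_ h3)
      rw [norm_neg]
      exact lt_of_le_of_lt h2 h4
  have hFk : F.map (eval₂RingHom θR (θ vk)) = npoly d t := by
    rw [hFmap, hvkw, lpoly_map]
    apply lpoly_npoly
    · rw [(hLrec k hkN).1, map_one]
    · intro l hl
      have h1 := congrArg θ (hLrec2 k hkN l hl)
      rw [map_mul, map_natCast, map_neg, map_sum] at h1
      rw [h1]
      congr 1
      apply Finset.sum_congr rfl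
      intro i _
      rw [map_mul, ht]
      simp
  have hf₀ : (ρ g).charpoly = npoly d fun l => (ρ g ^ l).trace := by
    rw [apm_charpoly (ρ g) hβ]
    exact (npoly_family β _ fun l _ => hβt l).symm
  have hclose : ∀ i, ‖(F.map (eval₂RingHom θR (θ vk)) - (ρ g).charpoly).coeff i‖ ≤ r := by
    intro i
    rw [hFk, hf₀, Polynomial.coeff_sub]
    by_cases hi : i ≤ d
    · exact (hnear t key i hi).le
    · rw [Polynomial.coeff_eq_zero_of_natDegree_lt (lt_of_le_of_lt (npoly_natDegree_le d t)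
        (by omega)), Polynomial.coeff_eq_zero_of_natDegree_lt (lt_of_le_of_lt
        (npoly_natDegree_le d _) (by omega)), sub_self, norm_zero]
      exact hr0.le
  -- the numbers `μ` at the level `k`
  have hξn : ∀ a, ‖θ (ξ a)‖ = 1 := fun a => tu_norm_one (hM'0 a) (by
    rw [← map_pow, hξ a, map_one])
  obtain ⟨i, hi⟩ := hbig (fun a => θ (ξ a) * θ vk ^ u a) (by
    intro a
    refine ⟨M' a, hM'0 a, hM'p a, hM't a, ?_⟩
    rw [mul_pow, pow_mul, ← map_pow θ (ξ a), hξ a, map_one, one_pow, one_mul, mul_comm (M' a),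
      ← pow_mul, mul_comm (u a), mul_assoc, pow_mul, ← map_pow θ vk, hvk.pow_eq_one, map_one,
      one_pow])
  have hfin := apm_transfer θR hr0.le hrO hr1 F (fun a => ⟨ξ a, hξR a⟩) u (s₀ := θ vk)
    (s := θ vn) hvkn hvnn (fun a => (hξn a).le)
    (apm_far (Nat.add_le_add_right hkn b) (hvk.map_of_injective θ.injective)
      (hvn.map_of_injective θ.injective))
    (apm_near1 (n := n + b) (by rw [← map_pow, hvn.pow_eq_one, map_one]))
    (fun i => θ (α i)) hα1n hFn (ρ g).charpoly hclose emb1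
    (fun a => by
      show ‖θ (α (emb1 a)) - θ (ξ a) * θ vn ^ u a‖ ≤ r
      have h1 : θ (α (emb1 a)) - θ (ξ a) * θ vn ^ u a =
          ((q : ℂ_[p]) ^ j - 1) * (θ (ξ a) * θ vn ^ u a) := by
        rw [hαξ a, map_mul, map_mul, map_pow, map_pow, map_natCast]
        ring
      rw [h1, norm_mul, norm_mul, hξn, norm_pow, hvnn, one_pow, one_mul, mul_one]
      exact (q_pow_norm q j).trans hqr) i
  have hlt : ‖((ρ g).charpoly %ₘ ∏ a, (X - C (θ (ξ a) * θ vk ^ u a))).coeff i‖ ^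
      (p ^ c).totient ≤ ‖(p : ℂ_[p])‖ := by
    rw [← hrp]
    exact pow_le_pow_left₀ (norm_nonneg _) hfin _
  exact absurd hi (not_lt.mpr hlt)

end Pool.Agent.EFF
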