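import Pool.Agent.Lib_helper19.EFF.Defs

/-!
# One element at one level: the hypothesis
-/

set_option autoImplicit false

namespace Pool.Agent.EFF

open NumberField Polynomial
open Pool.Agent.TT Pool.Agent.KT Pool.Agent.KP

/-- The traces of `ρ` at the Frobenius elements are the images under `θ` of the sums `T(F)` of the
family `S` for the `n`-th root of unity `ω` of `L`, modulo `|F| - 1`. -/
def TracesOver {K L : Type} [Field K] [Field L] [Algebra K L] [Algebra L Qbar] {p : ℕ}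
    [Fact p.Prime] (θ : Qbar →+* ℂ_[p]) (m : ℕ) (ζ : 𝓞 K) (n : ℕ) (ω : 𝓞 L) {s : ℕ}
    (S : Fin s → TowerStratum K) {d : ℕ}
    (ρ : (Qbar ≃ₐ[L] Qbar) →* Matrix (Fin d) (Fin d) ℂ_[p]) : Prop :=
  AtFrobenius fun σ F _ _ φ =>
    ‖(ρ σ⁻¹).trace - θ (algebraMap L Qbar (towerSum m ζ n ω φ S : 𝓞 L))‖ ≤
      ‖(Fintype.card F : ℂ_[p]) - 1‖

/-- For all roots of unity `μ_0, ..., μ_e` of orders that divide `M_i * p ^ k`, `M_i` prime to `p`,
`φ(M_i) ≤ D`, the remainder of the characteristic polynomial of `N` modulo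
`(X - μ_0) ... (X - μ_e)` has a coefficient `a` with `|a| ^ f > |p|`. -/
def FarFromRoots {p : ℕ} [Fact p.Prime] {d : ℕ} (N : Matrix (Fin d) (Fin d) ℂ_[p])
    (D k e f : ℕ) : Prop :=
  ∀ μ : Fin (e + 1) → ℂ_[p], (∀ a, SmallRoot D k (μ a)) →
    ∃ i, ‖(p : ℂ_[p])‖ < ‖(N.charpoly %ₘ ∏ a, (X - C (μ a))).coeff i‖ ^ f

/-- **One element at one level.** There is a continuous representation `ρ` of the Galois group of
`L` over `ℂ_[p]` of dimension `d` with the traces `T(F)`, the sums of the family `S` for the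
`p ^ k`-th root of unity `ω`, modulo `|F| - 1`, and there is an element `g` that fixes all roots of
unity of `p`-power order such that `ρ g` is far from having `e + 1` eigenvalues that are roots of
unity of orders that divide `M * p ^ (k + b)` (`FarFromRoots`, for `D = d * φ(m)` and the exponent
`φ(p ^ c)`). -/
def OneElement {K L : Type} [Field K] [Field L] [Algebra K L] [Algebra L Qbar] {p : ℕ}
    [Fact p.Prime] (θ : Qbar →+* ℂ_[p]) (m c : ℕ) (ζ : 𝓞 K) (k b : ℕ) (ω : 𝓞 L) {s : ℕ}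
    (S : Fin s → TowerStratum K) (d e : ℕ) : Prop :=
  ∃ (ρ : (Qbar ≃ₐ[L] Qbar) →* Matrix (Fin d) (Fin d) ℂ_[p]) (g : Qbar ≃ₐ[L] Qbar),
    Continuous ρ ∧ TracesOver θ (m * p ^ c) ζ (p ^ k) ω S ρ ∧ FixesRoots p g ∧
      FarFromRoots (ρ g) (d * m.totient) (k + b) e (p ^ c).totient

end Pool.Agent.EFF
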